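import Pool.Agent.V11227.PK4

/-!
# None of the generalized PCG classes is closed under complement

For every `k ≥ 1` none of the classes of `k`-interval-PCGs, OR-`k`-PCGs and AND-`k`-PCGs is closed
under complement.

For the first two classes the example is an alternating cograph: the leaves of the `M`-ary tree of
depth `2 k + 1` (`M` large), where two leaves are adjacent iff they differ first at an even level.
It is a `k`-interval-PCG.  In its complement the pairs of leaves at the odd levels are edges; by a
Ramsey argument and the four-point condition the edges at the `k + 1` odd levels need `k + 1`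
different trees.  For the third class the example is the disjoint union of `k + 1` copies of
`K_{2k,2k}`.
-/

set_option autoImplicit false

namespace Pool.Agent.Results.MP_f2fe1e_co.NotClosed

open Pool.Agent.V11227.PK

/-- For every `k ≥ 1`, none of the three classes is closed under complement. -/
theorem result (k : ℕ) (hk : 1 ≤ k) :
    (∃ (V : Type) (_ : Finite V) (G : SimpleGraph V), IsIntervalPCG k G ∧ ¬ IsIntervalPCG k Gᶜ) ∧
    (∃ (V : Type) (_ : Finite V) (G : SimpleGraph V), IsOrPCG k G ∧ ¬ IsOrPCG k Gᶜ) ∧
    (∃ (V : Type) (_ : Finite V) (G : SimpleGraph V), IsAndPCG k G ∧ ¬ IsAndPCG k Gᶜ) := by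
  obtain ⟨M, h1, h2⟩ := exists_cog k
  refine ⟨⟨_, inferInstance, _, h1, fun h => h2 h.isOrPCG⟩, ⟨_, inferInstance, _, h1.isOrPCG, h2⟩,
    ⟨_, inferInstance, copies k (2 * k), (isPCG_copies hk (by omega)).isAndPCG hk,
      not_isAndPCG_compl ?_⟩⟩
  obtain ⟨m, rfl⟩ : ∃ m, k = m + 1 := ⟨k - 1, by omega⟩
  have : 2 * (2 * (m + 1)) - 1 = 4 * m + 3 := by omega
  rw [this]
  nlinarith

end Pool.Agent.Results.MP_f2fe1e_co.NotClosed
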